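import Mathlib
import Pool.Agent.H6.RK.Den
import Pool.Graph.R_seed8.Y242.CK.NecP

set_option autoImplicit false

/-!
# Cauchy kernels at random points with prescribed moduli

Let `r k → 1` be any moduli (in any order, however sparse) with `∑ (1 - r k) = ∞`, the necessary Blaschke
condition. For almost every choice of the arguments the Cauchy kernels at the points form a representing
system in all Hardy spaces `H^p`, `1 ≤ p < ∞`, at once, and in `H²` the expansion of every function is given
by the Kaczmarz algorithm (subtract from the remainder `R` the multiple `(1 - |λ|²) R(λ) k_λ`), with the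
Parseval identity. In particular such systems of upper density zero are typical.

Sketch. (`H²`) One random Kaczmarz step changes the mean energies `|a_n|²` of the Taylor coefficients into
`|a_n|² (1 - 2 p_n) + p_n ∑ p_m |a_m|²`, `p_n = (1 - r²) r^{2n}`; the total energy decreases by
`∑ p_n |a_n|²`. For this linear recursion the total energy tends to zero, because `∑_k p_n(k) = ∞` for
every `n`; as the norms of the remainders decrease, almost surely they tend to zero for the monomials and
hence for all `f ∈ H²`.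
(`H^p`) For a polynomial `g` and a block of indices with `∑ (1 - r_k²)` between `1/2` and `1` the sum of
the independent functions `(1 - r_k²) g(λ_k) k_{λ_k}` has the mean `g ∑ (1 - r_k²)`; at a point of the
circle its centred moments of order `2(n+1) ≥ p` are bounded in terms of the variance (at most about `|g|²`).
A small multiple `t_n` of the block therefore is, with a probability bounded below, closer to `g` than `0`
is by a fixed factor, and by Ottaviani's inequality its partial sums are bounded by a multiple of `‖g‖_p`.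
Disjoint blocks are independent, so almost surely every polynomial of a dense sequence has infinitely many
good blocks, and an iteration gives the expansions; countably many exponents suffice.
-/

namespace Pool.Agent.Results.MP_459ac8_an.RandomPoints

open MeasureTheory AddCircle Filter Topology Finset
open Pool.Agent.Results.MP_459ac8_an.ZeroDensity (Circ cauchyKernel MemHardy IsRepresenting upperDensity)
open scoped ENNReal

/-- The points with the moduli `r k` and the arguments `2π ω k`. -/
noncomputable def points (r : ℕ → ℝ) (ω : ℕ → Circ) (k : ℕ) : ℂ := (r k : ℂ) * (fourier 1 (ω k) : ℂ)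

/-- The law of a sequence of independent, uniformly distributed arguments. -/
noncomputable def unif : Measure (ℕ → Circ) := Measure.infinitePi fun _ : ℕ => (haarAddCircle : Measure Circ)

/-- The remainders `R 0 = f`, `R (k + 1) = R k - (1 - |Λ k|²) ⟨R k, k_{Λ k}⟩ k_{Λ k}` of the Kaczmarz
algorithm. -/
noncomputable def remainder (Λ : ℕ → ℂ) (f : Circ → ℂ) : ℕ → Circ → ℂ
  | 0 => f
  | k + 1 => fun t => remainder Λ f k t - (((1 - ‖Λ k‖ ^ 2 : ℝ) : ℂ) *
      ∫ s, starRingEnd ℂ (cauchyKernel (Λ k) s) * remainder Λ f k s ∂haarAddCircle) * cauchyKernel (Λ k) t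

/-- The coefficients `(1 - |Λ k|²) ⟨R k, k_{Λ k}⟩` of the Kaczmarz expansion of `f`. -/
noncomputable def coefficient (Λ : ℕ → ℂ) (f : Circ → ℂ) (k : ℕ) : ℂ :=
  ((1 - ‖Λ k‖ ^ 2 : ℝ) : ℂ) * ∫ s, starRingEnd ℂ (cauchyKernel (Λ k) s) * remainder Λ f k s ∂haarAddCircle

lemma remainder_eq (Λ : ℕ → ℂ) (f : Circ → ℂ) (k : ℕ) : remainder Λ f k = Pool.Agent.H6.RK.kacRem Λ f k := by
  induction k with
  | zero => rfl
  | succ k ih => simp only [remainder, Pool.Agent.H6.RK.kacRem, ih]

lemma coefficient_eq (Λ : ℕ → ℂ) (f : Circ → ℂ) (k : ℕ) : coefficient Λ f k = Pool.Agent.H6.RK.kacCoef Λ f k := by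
  simp only [coefficient, Pool.Agent.H6.RK.kacCoef, remainder_eq]

lemma norm_points {r : ℕ → ℝ} {k : ℕ} (h : 0 ≤ r k) (ω : ℕ → Circ) : ‖points r ω k‖ = r k :=
  Pool.Agent.H6.RK.norm_pt h _

lemma div_sq {r : ℕ → ℝ} (hr : ∀ k, 0 < r k ∧ r k < 1) (hd : ¬ Summable fun k => 1 - r k) :
    ¬ Summable fun k => 1 - r k ^ 2 := fun h => hd (Summable.of_nonneg_of_le
      (fun k => by have := hr k; linarith) (fun k => by have := hr k; nlinarith) h)

/-- (1) Let `0 < r k < 1`, `r k → 1` and `∑ (1 - r k) = ∞`. For almost every choice of the arguments `ω`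
(independent and uniformly distributed) the points `r k · e^{2πi ω k}` are distinct, their Cauchy kernels
form a representing system in every `H^p`, `1 ≤ p < ∞`, and for every `f ∈ H²` the Kaczmarz expansion
converges to `f` in `H²`, with the Parseval identity `∑ |c_k|² / (1 - r k²) = ‖f‖²`.
(2) If `∑ (1 - r k) < ∞` then no choice of the arguments gives a representing system in any `H^p`, `p ≥ 1`.
(3) There are strictly increasing moduli `r k` for which all the sets of points have upper density zero,
while almost every one is representing in every `H^p`, `1 ≤ p < ∞`. -/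
theorem result :
    (∀ r : ℕ → ℝ, (∀ k, 0 < r k ∧ r k < 1) → Tendsto r atTop (𝓝 1) → ¬ Summable (fun k => 1 - r k) →
      ∀ᵐ ω ∂unif, Function.Injective (points r ω) ∧
        (∀ p : ℝ≥0∞, 1 ≤ p → p ≠ ∞ → IsRepresenting p (points r ω)) ∧
        ∀ f : Circ → ℂ, MemHardy 2 f →
          Tendsto (fun N : ℕ => eLpNorm (fun t => f t - ∑ k ∈ range N, coefficient (points r ω) f k *
            cauchyKernel (points r ω k) t) 2 haarAddCircle) atTop (𝓝 0) ∧
          HasSum (fun k => ‖coefficient (points r ω) f k‖ ^ 2 / (1 - r k ^ 2))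
            ((eLpNorm f 2 haarAddCircle).toReal ^ 2)) ∧
    (∀ r : ℕ → ℝ, (∀ k, 0 ≤ r k ∧ r k < 1) → Summable (fun k => 1 - r k) →
      ∀ (ω : ℕ → Circ) (p : ℝ≥0∞), 1 ≤ p → ¬ IsRepresenting p (points r ω)) ∧
    (∃ r : ℕ → ℝ, StrictMono r ∧ (∀ k, 0 < r k ∧ r k < 1) ∧ (∀ ω : ℕ → Circ, upperDensity (points r ω) = 0) ∧
      ∀ᵐ ω ∂unif, Function.Injective (points r ω) ∧
        ∀ p : ℝ≥0∞, 1 ≤ p → p ≠ ∞ → IsRepresenting p (points r ω)) := by
  have h1 : ∀ r : ℕ → ℝ, (∀ k, 0 < r k ∧ r k < 1) → Tendsto r atTop (𝓝 1) → ¬ Summable (fun k => 1 - r k) →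
      ∀ᵐ ω ∂unif, Function.Injective (points r ω) ∧
        (∀ p : ℝ≥0∞, 1 ≤ p → p ≠ ∞ → IsRepresenting p (points r ω)) ∧
        ∀ f : Circ → ℂ, MemHardy 2 f →
          Tendsto (fun N : ℕ => eLpNorm (fun t => f t - ∑ k ∈ range N, coefficient (points r ω) f k *
            cauchyKernel (points r ω k) t) 2 haarAddCircle) atTop (𝓝 0) ∧
          HasSum (fun k => ‖coefficient (points r ω) f k‖ ^ 2 / (1 - r k ^ 2))
            ((eLpNorm f 2 haarAddCircle).toReal ^ 2) := by
    intro r hr hr1 hd
    have hr' : ∀ k, 0 ≤ r k ∧ r k < 1 := fun k => ⟨(hr k).1.le, (hr k).2⟩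
    have hd' := div_sq hr hd
    filter_upwards [Pool.Agent.H6.RK.inj_ae (fun k => (hr k).1), Pool.Agent.H6.RK.rep_ae hr' hr1 hd',
      Pool.Agent.H6.RK.kac_ae hr' hr1 hd'] with ω h1 h2 h3
    refine ⟨h1, h2, fun f hf => ?_⟩
    simp only [coefficient_eq]
    exact h3 f hf
  refine ⟨h1, fun r hr hs ω p hp hrep => ?_, ?_⟩
  · refine Pool.Agent.Y242.CK.necessityP hp (points r ω) (fun i => ?_) hrep ?_
    · rw [norm_points (hr i).1]; exact (hr i).2
    · simpa only [norm_points (hr _).1] using hs
  · refine ⟨Pool.Agent.H6.RK.sp, Pool.Agent.H6.RK.sp_mono, Pool.Agent.H6.RK.sp_pos, fun ω =>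
      Pool.Agent.H6.RK.sp_density fun k => norm_points (Pool.Agent.H6.RK.sp_pos k).1.le ω, ?_⟩
    filter_upwards [h1 _ Pool.Agent.H6.RK.sp_pos Pool.Agent.H6.RK.sp_tendsto Pool.Agent.H6.RK.sp_div] with ω h
    exact ⟨h.1, h.2.1⟩

end Pool.Agent.Results.MP_459ac8_an.RandomPoints
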